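import Pool.Agent.H48.HoC

set_option autoImplicit false

namespace Pool.Agent.Results.MP_bd3523_gt.Q1Yes

open Pool.Agent.H48.HoDefs

theorem result : ∃ f : ℂ ≃ₜ ℂ, Homeo1 f ∧ ¬ (NonDiff f).Countable :=
  Pool.Agent.H48.HoC.q1

end Pool.Agent.Results.MP_bd3523_gt.Q1Yes
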