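import Pool.Agent.H48.HoF

set_option autoImplicit false

namespace Pool.Agent.Results.MP_bd3523_gt.Q2No

open Pool.Agent.H48.HoDefs MeasureTheory
open scoped Manifold ContDiff

theorem result (S : Type) [TopologicalSpace S] [ChartedSpace ℂ S] [IsManifold 𝓘(ℝ, ℂ) ∞ S]
    (f : S ≃ₜ S) (hf : Homeo1 f) (φ : OpenPartialHomeomorph S ℂ)
    (hφ : φ ∈ IsManifold.maximalAtlas 𝓘(ℝ, ℂ) ∞ S) :
    volume (φ '' (NonDiff f ∩ φ.source)) = 0 :=
  Pool.Agent.H48.HoF.q2 hf hφ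

end Pool.Agent.Results.MP_bd3523_gt.Q2No
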